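import Pool.Agent.Lib.MP_02a0e4_an.Final

/-!
Negative answer to the question exactly as posed: with `liminf` in the definition of type (E), and
`o(√n)` along all `n` in (a) and (b), there is a (real or complex) Banach space of type (E) for which
every sequence of `n`-dimensional subspaces fails both (a) and (b).
-/

open Filter Asymptotics
open scoped Topology

universe u

namespace Pool.Agent.Results.MP_02a0e4_an.Negative

open Pool.Agent.Lib.MP_02a0e4_an

/-- There is a Banach space `X` of type (E) such that for infinitely many `n` every `n`-dimensional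
subspace `Z` of `X` satisfies `d(Z, ℓ₂ⁿ) λ(Z, X) ≥ √n / 12`; consequently every sequence of subspaces
`Y n` with `dim Y n = n` fails both (a) and (b). -/
theorem result (𝕜 : Type u) [RCLike 𝕜] :
    ∃ (X : Type u) (_ : NormedAddCommGroup X) (_ : NormedSpace 𝕜 X) (_ : CompleteSpace X),
      IsTypeE 𝕜 X ∧
      (∃ᶠ n : ℕ in atTop, ∀ Z : Submodule 𝕜 X, Module.finrank 𝕜 Z = n →
        √(n : ℝ) / 12 ≤ bmDist 𝕜 Z (EuclideanSpace 𝕜 (Fin n)) * projConst Z) ∧
      ∀ Y : ℕ → Submodule 𝕜 X, (∀ n, 1 ≤ n → Module.finrank 𝕜 (Y n) = n) →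
        ¬ PropA Y ∧ ¬ PropB Y := by
  refine ⟨Xspace 𝕜, inferInstance, inferInstance, inferInstance, Xspace_typeE, Xspace_bad, ?_⟩
  intro Y hY
  have hbad := Xspace_bad (𝕜 := 𝕜)
  constructor
  · rintro ⟨⟨C, hC⟩, ho⟩
    set C' : ℝ := max C 0 + 1
    have hC'0 : 0 < C' := by have := le_max_right C 0; linarith
    have h1 := ho.bound (show (0:ℝ) < 1 / (24 * C') by positivity)
    have h2 := (hbad.and_eventually (h1.and (eventually_ge_atTop 1))).exists
    obtain ⟨n, hn1, hn2, hn3⟩ := h2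
    have h3 := hn1 (Y n) (hY n hn3)
    have h4 : projConst (Y n) ≤ C' := (hC n hn3).trans (by
      have := le_max_left C 0; linarith)
    have h5 : bmDist 𝕜 (Y n) (EuclideanSpace 𝕜 (Fin n)) ≤ 1 / (24 * C') * √(n:ℝ) := by
      have h6 := le_abs_self (bmDist 𝕜 (Y n) (EuclideanSpace 𝕜 (Fin n)))
      rw [Real.norm_eq_abs, Real.norm_eq_abs, abs_of_nonneg (Real.sqrt_nonneg _)] at hn2
      exact h6.trans hn2
    have hs : 0 < √(n:ℝ) := Real.sqrt_pos.2 (by exact_mod_cast hn3)
    have h7 : √(n:ℝ) / 12 ≤ (1 / (24 * C') * √(n:ℝ)) * C' := by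
      refine h3.trans ?_
      have := projConst_nonneg (E := Y n)
      gcongr
    have h8 : (1 / (24 * C') * √(n:ℝ)) * C' = √(n:ℝ) / 24 := by field_simp
    rw [h8] at h7
    linarith
  · rintro ⟨⟨C, hC⟩, ho⟩
    set C' : ℝ := max C 0 + 1
    have hC'0 : 0 < C' := by have := le_max_right C 0; linarith
    have h1 := ho.bound (show (0:ℝ) < 1 / (24 * C') by positivity)
    have h2 := (hbad.and_eventually (h1.and (eventually_ge_atTop 1))).exists
    obtain ⟨n, hn1, hn2, hn3⟩ := h2
    have h3 := hn1 (Y n) (hY n hn3)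
    have h4 : bmDist 𝕜 (Y n) (EuclideanSpace 𝕜 (Fin n)) ≤ C' := (hC n hn3).trans (by
      have := le_max_left C 0; linarith)
    have h5 : projConst (Y n) ≤ 1 / (24 * C') * √(n:ℝ) := by
      have h6 := le_abs_self (projConst (Y n))
      rw [Real.norm_eq_abs, Real.norm_eq_abs, abs_of_nonneg (Real.sqrt_nonneg _)] at hn2
      exact h6.trans hn2
    have hs : 0 < √(n:ℝ) := Real.sqrt_pos.2 (by exact_mod_cast hn3)
    have h7 : √(n:ℝ) / 12 ≤ C' * (1 / (24 * C') * √(n:ℝ)) := by
      refine h3.trans ?_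
      have := projConst_nonneg (E := Y n)
      gcongr
    have h8 : C' * (1 / (24 * C') * √(n:ℝ)) = √(n:ℝ) / 24 := by field_simp
    rw [h8] at h7
    linarith

end Pool.Agent.Results.MP_02a0e4_an.Negative
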