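import Pool.Agent.Lib.MP_02a0e4_an.Final

/-!
Affirmative counterpart: every Banach space of type (E) contains, for every `n`, an `n`-dimensional
subspace which is almost isometric to `ℓ₂ⁿ` and complemented as well as the identity of `ℓ₂ⁿ`
factors through the space (up to a constant).
-/

open Filter Asymptotics
open scoped Topology

universe u v

namespace Pool.Agent.Results.MP_02a0e4_an.Positive

open Pool.Agent.Lib.MP_02a0e4_an

/-- Let `X` be a Banach space of type (E) and `0 < ε ≤ 1`. There are subspaces `Y n` of `X`,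
`dim Y n = n`, with `d(Y n, ℓ₂ⁿ) ≤ 1 + ε` and `λ(Y n, X) ≤ (20/ε) ‖A‖ ‖B‖` for every factorization
`B A = id` of the identity of `ℓ₂ⁿ` through `X`. Hence `liminf n^{-1/2} λ(Y n, X) = 0`; the sequence
`Y` has property (b) as soon as the identities factor with `‖A n‖ ‖B n‖ = o(√n)`, and
also as soon as some sequence of subspaces satisfies (a) or (b). -/
theorem result (𝕜 : Type u) [RCLike 𝕜] (X : Type v) [NormedAddCommGroup X] [NormedSpace 𝕜 X]
    [CompleteSpace X] (hX : IsTypeE 𝕜 X) (ε : ℝ) (hε : 0 < ε) (hε1 : ε ≤ 1) :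
    ∃ Y : ℕ → Submodule 𝕜 X,
      (∀ n, 1 ≤ n → Module.finrank 𝕜 (Y n) = n ∧
        bmDist 𝕜 (Y n) (EuclideanSpace 𝕜 (Fin n)) ≤ 1 + ε ∧
        ∀ (A : EuclideanSpace 𝕜 (Fin n) →L[𝕜] X) (B : X →L[𝕜] EuclideanSpace 𝕜 (Fin n)),
          (∀ x, B (A x) = x) → projConst (Y n) ≤ (20 / ε) * (‖A‖ * ‖B‖)) ∧
      (∀ δ : ℝ, 0 < δ → ∃ᶠ n : ℕ in atTop, projConst (Y n) < δ * √(n : ℝ)) ∧
      ((∃ (A : ∀ n : ℕ, EuclideanSpace 𝕜 (Fin n) →L[𝕜] X)
          (B : ∀ n : ℕ, X →L[𝕜] EuclideanSpace 𝕜 (Fin n)),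
          (∀ n, 1 ≤ n → ∀ x, B n (A n x) = x) ∧
          (fun n : ℕ => ‖A n‖ * ‖B n‖) =o[atTop] (fun n : ℕ => √(n : ℝ))) → PropB Y) ∧
      ((∃ Z : ℕ → Submodule 𝕜 X, (∀ n, 1 ≤ n → Module.finrank 𝕜 (Z n) = n) ∧
          (PropA Z ∨ PropB Z)) → PropB Y) := by
  -- construction
  have h0 : ∀ n : ℕ, ∃ Y : Submodule 𝕜 X, 1 ≤ n → (Module.finrank 𝕜 Y = n ∧
      bmDist 𝕜 Y (EuclideanSpace 𝕜 (Fin n)) ≤ 1 + ε ∧
      ∀ (A : EuclideanSpace 𝕜 (Fin n) →L[𝕜] X) (B : X →L[𝕜] EuclideanSpace 𝕜 (Fin n)),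
        (∀ x, B (A x) = x) → projConst Y ≤ (20 / ε) * (‖A‖ * ‖B‖)) := by
    intro n
    by_cases hn : 1 ≤ n
    · obtain ⟨A, B, hAB, hbest⟩ := exists_near_best hX hn
      obtain ⟨Y, h1, h2, h3⟩ := perturb hX hn A B hAB (ε := ε / 8) (by positivity) (by linarith)
      refine ⟨Y, fun _ => ⟨h1, h2.trans ?_, fun A' B' h' => h3.trans ?_⟩⟩
      · rw [div_le_iff₀ (by linarith)]
        nlinarith
      · have h4 := hbest A' B' h'
        have h5 : (1 + 2 * (ε / 8)) / (ε / 8) ≤ 10 / ε := by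
          rw [div_le_div_iff₀ (by positivity) hε]
          nlinarith
        have h6 : 0 ≤ (1 + 2 * (ε / 8)) / (ε / 8) := by positivity
        calc (1 + 2 * (ε / 8)) / (ε / 8) * (‖A‖ * ‖B‖) ≤ (10 / ε) * (2 * (‖A'‖ * ‖B'‖)) := by
              gcongr
          _ = (20 / ε) * (‖A'‖ * ‖B'‖) := by ring
    · exact ⟨⊥, fun h => absurd h hn⟩
  choose Y hY using h0
  -- limit form
  have hlim : (∃ (A : ∀ n : ℕ, EuclideanSpace 𝕜 (Fin n) →L[𝕜] X)
          (B : ∀ n : ℕ, X →L[𝕜] EuclideanSpace 𝕜 (Fin n)),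
          (∀ n, 1 ≤ n → ∀ x, B n (A n x) = x) ∧
          (fun n : ℕ => ‖A n‖ * ‖B n‖) =o[atTop] (fun n : ℕ => √(n : ℝ))) → PropB Y := by
    rintro ⟨A, B, hAB, ho⟩
    refine ⟨⟨1 + ε, fun n hn => (hY n hn).2.1⟩, ?_⟩
    have h1 : (fun n : ℕ => (20 / ε) * (‖A n‖ * ‖B n‖)) =o[atTop] (fun n : ℕ => √(n : ℝ)) :=
      ho.const_mul_left _
    refine IsBigO.trans_isLittleO (IsBigO.of_bound 1 ?_) h1
    filter_upwards [eventually_ge_atTop 1] with n hn
    have h2 := (hY n hn).2.2 (A n) (B n) (hAB n hn)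
    rw [one_mul, Real.norm_eq_abs, Real.norm_eq_abs, abs_of_nonneg projConst_nonneg,
      abs_of_nonneg (by positivity)]
    exact h2
  refine ⟨Y, fun n hn => hY n hn, ?_, hlim, ?_⟩
  · intro δ hδ
    obtain ⟨-, A, B, hAB, hf⟩ := hX
    have h1 := hf (δ * ε / 20) (by positivity)
    refine (h1.and_eventually (eventually_ge_atTop 1)).mono fun n hn => ?_
    obtain ⟨h2, h3⟩ := hn
    have h4 := (hY n h3).2.2 (A n) (B n) (hAB n h3)
    calc projConst (Y n) ≤ (20 / ε) * (‖A n‖ * ‖B n‖) := h4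
      _ < (20 / ε) * (δ * ε / 20 * √(n:ℝ)) := by gcongr
      _ = δ * √(n:ℝ) := by field_simp
  · rintro ⟨Z, hZ, hor⟩
    apply hlim
    have h1 : ∀ n : ℕ, ∃ AB : (EuclideanSpace 𝕜 (Fin n) →L[𝕜] X) × (X →L[𝕜] EuclideanSpace 𝕜 (Fin n)),
        1 ≤ n → ((∀ x, AB.2 (AB.1 x) = x) ∧ ‖AB.1‖ * ‖AB.2‖ ≤
          (bmDist 𝕜 (Z n) (EuclideanSpace 𝕜 (Fin n)) + 1) * (projConst (Z n) + 1)) := by
      intro n
      by_cases hn : 1 ≤ n
      · obtain ⟨A, B, h2, h3⟩ := exists_factor_near hn (Z n) (hZ n hn)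
        exact ⟨(A, B), fun _ => ⟨h2, h3⟩⟩
      · exact ⟨(0, 0), fun h => absurd h hn⟩
    choose AB hAB using h1
    refine ⟨fun n => (AB n).1, fun n => (AB n).2, fun n hn => (hAB n hn).1, ?_⟩
    have hone : (fun _ : ℕ => (1:ℝ)) =o[atTop] (fun n : ℕ => √(n : ℝ)) := by
      rw [isLittleO_const_left]
      right
      have h2 : Tendsto (fun n : ℕ => √(n:ℝ)) atTop atTop :=
        Real.tendsto_sqrt_atTop.comp tendsto_natCast_atTop_atTop
      exact tendsto_norm_atTop_atTop.comp h2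
    have key : (fun n : ℕ => (bmDist 𝕜 (Z n) (EuclideanSpace 𝕜 (Fin n)) + 1) * (projConst (Z n) + 1))
        =o[atTop] (fun n : ℕ => √(n : ℝ)) := by
      rcases hor with ⟨⟨C, hC⟩, ho⟩ | ⟨⟨C, hC⟩, ho⟩
      · have h2 : (fun n : ℕ => bmDist 𝕜 (Z n) (EuclideanSpace 𝕜 (Fin n)) + 1) =o[atTop]
            (fun n : ℕ => √(n : ℝ)) := ho.add hone
        have h3 : (fun n : ℕ => (projConst (Z n) + 1)) =O[atTop] (fun _ : ℕ => (1:ℝ)) := by
          refine IsBigO.of_bound (C + 1) ?_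
          filter_upwards [eventually_ge_atTop 1] with n hn
          have h4 := hC n hn
          have h5 := projConst_nonneg (E := Z n)
          rw [norm_one, mul_one, Real.norm_eq_abs, abs_of_nonneg (by linarith)]
          linarith
        simpa using h2.mul_isBigO h3
      · have h2 : (fun n : ℕ => projConst (Z n) + 1) =o[atTop]
            (fun n : ℕ => √(n : ℝ)) := ho.add hone
        have h3 : (fun n : ℕ => (bmDist 𝕜 (Z n) (EuclideanSpace 𝕜 (Fin n)) + 1)) =O[atTop]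
            (fun _ : ℕ => (1:ℝ)) := by
          refine IsBigO.of_bound (C + 1) ?_
          filter_upwards [eventually_ge_atTop 1] with n hn
          have h4 := hC n hn
          have h5 : 0 ≤ bmDist 𝕜 (Z n) (EuclideanSpace 𝕜 (Fin n)) := bmDist_nonneg
          rw [norm_one, mul_one, Real.norm_eq_abs, abs_of_nonneg (by linarith)]
          linarith
        simpa using h3.mul_isLittleO h2
    refine IsBigO.trans_isLittleO (IsBigO.of_bound 1 ?_) key
    filter_upwards [eventually_ge_atTop 1] with n hn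
    have h2 := (hAB n hn).2
    have h5 : 0 ≤ bmDist 𝕜 (Z n) (EuclideanSpace 𝕜 (Fin n)) := bmDist_nonneg
    have h6 := projConst_nonneg (E := Z n)
    rw [one_mul, Real.norm_eq_abs, Real.norm_eq_abs, abs_of_nonneg (by positivity),
      abs_of_nonneg (by positivity)]
    exact h2

end Pool.Agent.Results.MP_02a0e4_an.Positive
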